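import Pool.Agent.Lib.MP_ed1a61_al_N.Rel

/-! # MP_ed1a61_al, assembly: the relations of the group `G` -/

set_option autoImplicit false

namespace SclIrr.Z

open SclIrr

theorem val_pos {H : Type} [Group H] (u : X → H) (w : List (Fin 2)) :
    N.val u ((W.pos w).map (Prod.map ab id)) = (w.map ![u X.a, u X.b]).prod := by
  unfold N.val W.pos
  rw [List.map_map, List.map_map]
  congr 1
  refine List.map_congr_left fun y _ => ?_
  fin_cases y <;> rfl

theorem ga : gam X.t * gam X.a * (gam X.t)⁻¹ = ((W.phL 0).map ![gam X.a, gam X.b]).prod := by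
  rw [← val_pos, ← N.rel_t]
  rfl

theorem gb : gam X.t * gam X.b * (gam X.t)⁻¹ = ((W.phL 1).map ![gam X.a, gam X.b]).prod := by
  rw [← val_pos, ← N.rel_t]
  rfl

theorem gx : gam X.b ^ 6000 = gam X.c * gam X.d * (gam X.c)⁻¹ * (gam X.d)⁻¹ *
    (gam X.e * gam X.f * (gam X.e)⁻¹ * (gam X.f)⁻¹) := by
  have h := N.rel_b
  have h1 : mexp = 6000 := rfl
  rw [h1] at h
  rw [h]
  simp [N.val, xW, N.lv, cf, mul_assoc]

end SclIrr.Z
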