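import Pool.Agent.Lib.MP_ed1a61_al_Z.Tends
import Pool.Agent.Lib.MP_ed1a61_al_Z.GRel
import Pool.Agent.Lib.MP_ed1a61_al_N.Hyp

/-! # MP_ed1a61_al, assembly: the frozen statement from hyperbolicity and the lower bound -/

set_option autoImplicit false

namespace SclIrr.Z

open SclIrr Filter Topology Pool.MP_ed1a61_al.Fill

/-- The negation of the rationality of stable commutator length for hyperbolic groups, from the
freeness of two subgroups of `G` and the lower bound. -/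
theorem main (h2 : Function.Injective (FreeGroup.lift (gam ∘ ab)))
    (h4 : Function.Injective (FreeGroup.lift (gam ∘ cf)))
    (hlow : ∃ C : ℝ, ∀ (n : ℕ) (l : List G), (∀ c ∈ l, c ∈ commutatorSet G) →
      l.prod = (gam X.a * gam X.s * gam X.b * gam X.s) ^ n →
      (n : ℝ) * (2 + (1 - W.rho) / 1000) - C ≤ 4 * l.length) :
    ¬ (∀ (G : Type) [Group G] (S : Finset G) (d : G → G → ℕ) (cl : G → ℕ),
      Subgroup.closure (S : Set G) = ⊤ →
      (∀ x y : G, d x y = sInf {n : ℕ | ∃ l : List G, l.length = n ∧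
          (∀ s ∈ l, s ∈ S ∨ s⁻¹ ∈ S) ∧ l.prod = x⁻¹ * y}) →
      (∃ δ : ℕ, ∀ x y z w : G,
          d x z + d y w ≤ max (d x y + d z w) (d x w + d y z) + 2 * δ) →
      (∀ g : G, cl g = sInf {n : ℕ | ∃ l : List G, l.length = n ∧
          (∀ c ∈ l, c ∈ commutatorSet G) ∧ l.prod = g}) →
      ∀ g ∈ commutator G, ∃ q : ℚ,
        Filter.Tendsto (fun n : ℕ => (cl (g ^ n) : ℝ) / (n : ℝ)) Filter.atTop
          (nhds (q : ℝ))) := by
  intro hall
  classical
  obtain ⟨C, hC⟩ := hlow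
  obtain ⟨h24, hno⟩ := not_rat ga gb N.rel_s gx (C := C) (fun n k hk => by
    obtain ⟨l, hl, hc, hp⟩ := hk
    have h := hC n l hc hp
    rw [hl] at h
    exact h)
  let S : Finset G := Finset.univ.image gam
  have hS : ∀ g, g ∈ S ↔ ∃ x, gam x = g := fun g => by
    simp only [S, Finset.mem_image, Finset.mem_univ, true_and]
  have hd : ∀ x y : G, (fun x y : G => sInf {n : ℕ | ∃ l : List G, l.length = n ∧
      (∀ s ∈ l, s ∈ S ∨ s⁻¹ ∈ S) ∧ l.prod = x⁻¹ * y}) x y =
      sInf {n : ℕ | ∃ l : List G, l.length = n ∧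
      (∀ s ∈ l, s ∈ S ∨ s⁻¹ ∈ S) ∧ l.prod = x⁻¹ * y} := fun x y => rfl
  obtain ⟨q, hq⟩ := hall G S _ (fun g => sInf {n : ℕ | ∃ l : List G, l.length = n ∧
      (∀ c ∈ l, c ∈ commutatorSet G) ∧ l.prod = g}) (N.closure_gam hS) hd
      (N.four_point h2 h4 hS hd) (fun g => rfl) _ h24
  exact hno q hq

end SclIrr.Z
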