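import Pool.Agent.Lib.MP_ed1a61_al_U.Upper
import Pool.Agent.Lib.MP_ed1a61_al.Fill.Limit

/-! # MP_ed1a61_al, assembly: the limit is irrational -/

set_option autoImplicit false

namespace SclIrr.Z

open Filter Topology Pool.MP_ed1a61_al.Fill

variable {H : Type} [Group H]

/-- a lower bound and an upper bound of the stable commutator length determine the limit -/
theorem limit_eq {h : H} {lam : ℝ} (hup : Sc [h] lam) {C : ℝ}
    (hlow : ∀ n k : ℕ, CL k (h ^ n) → lam * n - C ≤ k) (hh : h ∈ commutator H) {q : ℝ}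
    (hq : Tendsto (fun n : ℕ => ((sInf {k : ℕ | CL k (h ^ n)} : ℕ) : ℝ) / (n : ℝ)) atTop (𝓝 q)) :
    q = lam := by
  have hcl : ∀ n : ℕ, CL (sInf {k : ℕ | CL k (h ^ n)}) (h ^ n) := by
    intro n
    obtain ⟨k, hk⟩ := exists_cl (pow_mem hh n)
    exact Nat.sInf_mem (s := {k : ℕ | CL k (h ^ n)}) ⟨k, hk⟩
  apply le_antisymm
  · refine le_of_forall_pos_le_add fun ε hε => ?_
    obtain ⟨m, hm, D, hD⟩ := hup ε hε
    have h1 : Tendsto (fun n : ℕ => ((sInf {k : ℕ | CL k (h ^ (m * n))} : ℕ) : ℝ) /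
        ((m * n : ℕ) : ℝ)) atTop (𝓝 q) :=
      hq.comp (tendsto_id.const_mul_atTop' hm)
    have h2 : Tendsto (fun n : ℕ => (lam + ε) + D / ((m * n : ℕ) : ℝ)) atTop
        (𝓝 ((lam + ε) + 0)) := by
      refine tendsto_const_nhds.add ?_
      refine Tendsto.div_atTop tendsto_const_nhds ?_
      exact tendsto_natCast_atTop_atTop.comp (tendsto_id.const_mul_atTop' hm)
    rw [add_zero] at h2
    refine le_of_tendsto_of_tendsto h1 h2 ?_
    filter_upwards [eventually_gt_atTop 0] with n hn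
    obtain ⟨k, hk1, hk2⟩ := hD n
    rw [List.map_cons, List.map_nil, List.prod_cons, List.prod_nil, mul_one] at hk1
    have h3 : sInf {k : ℕ | CL k (h ^ (m * n))} ≤ k := Nat.sInf_le hk1
    have h4 : ((sInf {k : ℕ | CL k (h ^ (m * n))} : ℕ) : ℝ) ≤ k := by exact_mod_cast h3
    have h5 : (0 : ℝ) < ((m * n : ℕ) : ℝ) := by
      exact_mod_cast Nat.mul_pos hm hn
    rw [div_le_iff₀ h5, add_mul, div_mul_cancel₀ _ h5.ne']
    linarith
  · have h2 : Tendsto (fun n : ℕ => lam - C / (n : ℝ)) atTop (𝓝 (lam - 0)) := by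
      refine tendsto_const_nhds.sub ?_
      exact Tendsto.div_atTop tendsto_const_nhds tendsto_natCast_atTop_atTop
    rw [sub_zero] at h2
    refine le_of_tendsto_of_tendsto h2 hq ?_
    filter_upwards [eventually_gt_atTop 0] with n hn
    have h3 := hlow n _ (hcl n)
    have h5 : (0 : ℝ) < (n : ℝ) := by exact_mod_cast hn
    rw [le_div_iff₀ h5, sub_mul, div_mul_cancel₀ _ h5.ne']
    exact h3

/-- the group theoretic core: the limit is not rational -/
theorem not_rat {a b t s c d e f : H} (ha : t * a * t⁻¹ = ((W.phL 0).map ![a, b]).prod)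
    (hb : t * b * t⁻¹ = ((W.phL 1).map ![a, b]).prod) (hs : s * s = 1)
    (hx : b ^ 6000 = c * d * c⁻¹ * d⁻¹ * (e * f * e⁻¹ * f⁻¹)) {C : ℝ}
    (hlow : ∀ n k : ℕ, CL k ((a * s * b * s) ^ n) → n * (2 + (1 - W.rho) / 1000) - C ≤ 4 * k) :
    (a * s * b * s) ^ 24 ∈ commutator H ∧
    ∀ q : ℚ, ¬ Tendsto (fun n : ℕ =>
      ((sInf {k : ℕ | CL k (((a * s * b * s) ^ 24) ^ n)} : ℕ) : ℝ) / (n : ℝ)) atTop (𝓝 (q : ℝ)) := by
  have h24 := U.g24 ha hb hs
  refine ⟨h24, fun q hq => ?_⟩
  have h1 := U.upper ha hb hs hx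
  have h2 : Sc [(a * s * b * s) ^ 24] (24 * (1 / 2 + 3 / 12000 * (1 - W.rho))) := by
    have h3 : ∀ n : ℕ, Sc (List.replicate n (a * s * b * s))
        (n * (1 / 2 + 3 / 12000 * (1 - W.rho))) := by
      intro n
      induction n with
      | zero => simpa using sc_nil
      | succ n ih =>
        have h4 := h1.append ih
        rw [List.singleton_append, ← List.replicate_succ] at h4
        refine h4.mono (le_of_eq ?_)
        push_cast
        ring
    have h5 := h3 24
    rw [← List.append_nil (List.replicate 24 (a * s * b * s)), ← sc_pow_iff] at h5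
    exact_mod_cast h5
  have h3 := limit_eq h2 (C := C / 4) (fun n k hk => ?_) h24 hq
  · have h4 : Irrational (24 * (1 / 2 + 3 / 12000 * (1 - W.rho))) := by
      have h5 : (24 * (1 / 2 + 3 / 12000 * (1 - W.rho))) =
          ((12 + 6 / 1000 : ℚ) : ℝ) - ((6 / 1000 : ℚ) : ℝ) * W.rho := by
        push_cast
        ring
      rw [h5]
      exact (W.rho_irrational.ratCast_mul (by norm_num)).ratCast_sub _
    exact h4 ⟨q, h3⟩
  · rw [← pow_mul] at hk
    have h4 := hlow (24 * n) k hk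
    push_cast at h4
    linarith

end SclIrr.Z
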